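import Pool.Agent.helper61.DL.Defs2

set_option autoImplicit false

/-!
# Module A2 of MP_6163c8_ag: regrouping of the vertex sums and limit
-/

namespace Pool.Agent.helper80.DL

open Finset Filter Topology Pool.Agent.helper61.DL

section

variable {n : ℕ} {ι : Type} [DecidableEq ι]

/-- the alternating sum over the faces of `Δ` -/
noncomputable def cc (nn : Finset ι → ℚ) (Δ : Finset ι) (x : ι → ℝ) : ℝ :=
  ∑ F ∈ Δ.powerset, (-1) ^ F.card * (nn F : ℝ) ^ 2 * ∏ v ∈ F, x v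

lemma wt_sum (nn : Finset ι → ℚ) (hnn : ∀ F : Finset ι, F.card ≤ 1 → nn F = 1) (s : ℝ)
    (hs : 0 < s) (Δ : Finset ι) (x : ι → ℝ) :
    ∑ F ∈ Δ.powerset.erase ∅, wt nn s F * ∏ v ∈ F, x v =
      -(s / (s + 1)) * cc nn Δ x + (s + ∑ v ∈ Δ, x v) / (s + 1) := by
  have hs1 : s + 1 ≠ 0 := by positivity
  have h1 : ∀ F ∈ Δ.powerset.erase ∅, wt nn s F * ∏ v ∈ F, x v =
      -(s / (s + 1)) * ((-1) ^ F.card * (nn F : ℝ) ^ 2 * ∏ v ∈ F, x v) +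
        (if F.card = 1 then (1 / (s + 1)) * ∏ v ∈ F, x v else 0) := by
    intro F hF
    have hF0 : F ≠ ∅ := (Finset.mem_erase.1 hF).1
    have hc : 0 < F.card := Finset.card_pos.2 (Finset.nonempty_iff_ne_empty.2 hF0)
    unfold wt
    split_ifs with h
    · rw [h, hnn F (by omega)]
      field_simp
      ring
    · obtain ⟨d, hd⟩ := Nat.exists_eq_add_of_lt hc
      rw [hd]
      simp only [zero_add, Nat.add_sub_cancel]
      ring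
  rw [Finset.sum_congr rfl h1, Finset.sum_add_distrib, ← Finset.mul_sum]
  have h2 : ∑ F ∈ Δ.powerset.erase ∅, (-1) ^ F.card * (nn F : ℝ) ^ 2 * ∏ v ∈ F, x v =
      cc nn Δ x - 1 := by
    have := Finset.add_sum_erase Δ.powerset
      (fun F => (-1) ^ F.card * (nn F : ℝ) ^ 2 * ∏ v ∈ F, x v) (Finset.empty_mem_powerset Δ)
    rw [cc, ← this, hnn ∅ (by simp)]
    simp
  have h3 : ∑ F ∈ Δ.powerset.erase ∅, (if F.card = 1 then (1 / (s + 1)) * ∏ v ∈ F, x v else 0) =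
      (1 / (s + 1)) * ∑ v ∈ Δ, x v := by
    rw [← Finset.sum_filter, ← Finset.mul_sum]
    congr 1
    have h4 : (Δ.powerset.erase ∅).filter (fun F => F.card = 1) = Δ.powersetCard 1 := by
      ext F
      simp only [Finset.mem_filter, Finset.mem_erase, Finset.mem_powerset, Finset.mem_powersetCard]
      constructor
      · rintro ⟨⟨_, h⟩, h'⟩
        exact ⟨h, h'⟩
      · rintro ⟨h, h'⟩
        refine ⟨⟨?_, h⟩, h'⟩
        rintro rfl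
        simp at h'
    rw [h4, Finset.powersetCard_one, Finset.sum_map]
    simp
  rw [h2, h3]
  field_simp
  ring

end

section

variable {n : ℕ} {ι : Type} [Fintype ι] [DecidableEq ι]

lemma aeval_gpoly (nn : Finset ι → ℚ) (Δ : Finset ι)
    (e : ι → ℚ) (z : ι → ℝ) (h0 : ∀ v, v ∉ Δ → (e v : ℝ) + z v = 0) :
    MvPolynomial.aeval z (gpoly (fun F => nn F ^ 2) e) = cc nn Δ (fun v => (e v : ℝ) + z v) := by
  rw [gpoly, cc, map_sum, ← Finset.sum_subset (Finset.subset_univ Δ.powerset)]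
  · apply Finset.sum_congr rfl
    intro S _
    simp only [map_mul, map_prod, map_add, map_pow, map_neg, map_one, MvPolynomial.aeval_C,
      MvPolynomial.aeval_X, eq_ratCast]
  · intro S _ hS
    rw [Finset.mem_powerset, Finset.not_subset] at hS
    obtain ⟨v, hv, hvΔ⟩ := hS
    have e1 : MvPolynomial.aeval z (∏ v ∈ S, (MvPolynomial.C (e v) + MvPolynomial.X v)) = 0 := by
      rw [map_prod]
      apply Finset.prod_eq_zero hv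
      rw [map_add, MvPolynomial.aeval_C, MvPolynomial.aeval_X, eq_ratCast, h0 v hvΔ]
    rw [map_mul, e1, mul_zero]

omit [Fintype ι] [DecidableEq ι] in
lemma volQ_ne_zero (V : ι → Fin n → ℚ) (Δ : Finset ι) (hcard : Δ.card = n)
    (hli : LinearIndependent ℚ (fun i : {i // i ∈ Δ} => V i)) : volQ V Δ ≠ 0 := by
  rw [volQ, dif_pos hcard, abs_ne_zero]
  have h1 : LinearIndependent ℚ (fun i => V ((Finset.equivFinOfCardEq hcard).symm i).1) :=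
    hli.comp _ (Finset.equivFinOfCardEq hcard).symm.injective
  have h2 := (Matrix.linearIndependent_rows_iff_isUnit
    (A := (fun i => V ((Finset.equivFinOfCardEq hcard).symm i).1 : Matrix (Fin n) (Fin n) ℚ))).1 h1
  exact ((Matrix.isUnit_iff_isUnit_det _).1 h2).ne_zero

omit [Fintype ι] in
lemma ZZ_eq (nn : Finset ι → ℚ) (hnn : ∀ F : Finset ι, F.card ≤ 1 → nn F = 1)
    (V : ι → Fin n → ℚ) (𝒱 : Finset (Finset ι)) (x : Finset ι → ι → ℝ) (s : ℝ) (hs : 0 < s)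
    (hx : ∀ Δ ∈ 𝒱, ∀ v ∈ Δ, x Δ v ≠ 0) (hsx : ∀ Δ ∈ 𝒱, s + ∑ v ∈ Δ, x Δ v ≠ 0) :
    ZZ nn V 𝒱 x s = (1 / (s + 1)) * ∑ Δ ∈ 𝒱, 1 / ((volQ V Δ : ℝ) * ∏ v ∈ Δ, x Δ v) -
      (s / (s + 1)) * ∑ Δ ∈ 𝒱, cc nn Δ (x Δ) /
        ((volQ V Δ : ℝ) * (s + ∑ v ∈ Δ, x Δ v) * ∏ v ∈ Δ, x Δ v) := by
  have hs1 : s + 1 ≠ 0 := by positivity
  rw [ZZ]
  simp only [RR, Finset.mul_sum]
  rw [Finset.sum_comm' (t' := 𝒱) (s' := fun Δ => Δ.powerset.erase ∅)]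
  · rw [← Finset.sum_sub_distrib]
    apply Finset.sum_congr rfl
    intro Δ hΔ
    have h1 : ∀ F ∈ Δ.powerset.erase ∅, wt nn s F *
        (1 / ((volQ V Δ : ℝ) * (s + ∑ v ∈ Δ, x Δ v) * ∏ v ∈ Δ \ F, x Δ v)) =
        (wt nn s F * ∏ v ∈ F, x Δ v) *
          (1 / ((volQ V Δ : ℝ) * (s + ∑ v ∈ Δ, x Δ v) * ∏ v ∈ Δ, x Δ v)) := by
      intro F hF
      have hF' := Finset.mem_powerset.1 (Finset.mem_erase.1 hF).2
      have hP : ∏ v ∈ F, x Δ v ≠ 0 := Finset.prod_ne_zero_iff.2 fun v hv => hx Δ hΔ v (hF' hv)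
      have h2 : ∏ v ∈ Δ, x Δ v = (∏ v ∈ F, x Δ v) * ∏ v ∈ Δ \ F, x Δ v := by
        rw [mul_comm]
        exact (Finset.prod_sdiff hF').symm
      rw [h2]
      rw [one_div, one_div, mul_inv, mul_inv, mul_inv, mul_inv, mul_inv]
      field_simp
    rw [Finset.sum_congr rfl h1, ← Finset.sum_mul, wt_sum nn hnn s hs]
    have hA := hsx Δ hΔ
    have e2 : (s + ∑ v ∈ Δ, x Δ v) / (s + 1) *
        (1 / ((volQ V Δ : ℝ) * (s + ∑ v ∈ Δ, x Δ v) * ∏ v ∈ Δ, x Δ v)) =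
        1 / (s + 1) * (1 / ((volQ V Δ : ℝ) * ∏ v ∈ Δ, x Δ v)) := by
      rw [one_div, one_div, one_div, mul_inv, mul_inv, mul_inv]
      field_simp
    rw [add_mul, e2]
    ring
  · intro F Δ
    simp only [Finset.mem_filter, Finset.mem_erase, Finset.mem_powerset, fcs, Finset.mem_biUnion]
    constructor
    · rintro ⟨⟨h1, h2⟩, h3, h4⟩
      exact ⟨⟨h1, h4⟩, h3⟩
    · rintro ⟨⟨h1, h2⟩, h3⟩
      exact ⟨⟨h1, Δ, h3, h2⟩, h3, h2⟩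

/-- The statement of module A1 (the limit at one point). -/
def LimitStar : Prop := ∀ {n : ℕ} {ι : Type} [Fintype ι] [DecidableEq ι] (V : ι → Fin n → ℚ)
    (𝒱 : Finset (Finset ι)) (_ : ∀ Δ ∈ 𝒱, Δ.card = n) (_ : ∀ Δ ∈ 𝒱, volQ V Δ ≠ 0)
    (t : Finset ι → ι → ℚ) (_ : ∀ Δ ∈ 𝒱, ∀ v, v ∉ Δ → t Δ v = 0)
    (_ : ∀ Δ ∈ 𝒱, ∀ v ∈ Δ, t Δ v ≠ 0) (e : ι → ℚ) (σ : Finset ι) (_ : ∀ v, v ∈ σ ↔ e v ≠ 0)
    (_ : 0 < ∑ v, e v)
    (_ : ∀ α : ι → ℕ, ∑ v, α v + σ.card < n →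
      ∑ Δ ∈ 𝒱 with σ ⊆ Δ, (∏ v, t Δ v ^ α v) / (volQ V Δ * ∏ v ∈ Δ \ σ, t Δ v) = 0)
    (C : MvPolynomial ι ℚ),
    (∃ K : ℚ, Tendsto (fun ε : ℝ => ∑ Δ ∈ 𝒱 with σ ⊆ Δ,
        MvPolynomial.aeval (fun v => ε * (t Δ v : ℝ)) C /
          ((volQ V Δ : ℝ) * ∏ v ∈ Δ, ((e v : ℝ) + ε * t Δ v))) (𝓝[>] 0) (𝓝 (K : ℝ))) ∧
    ∃ q : ℕ → ℚ, (∀ s : ℝ, 0 < s → Tendsto (fun ε : ℝ => ∑ Δ ∈ 𝒱 with σ ⊆ Δ,
        MvPolynomial.aeval (fun v => ε * (t Δ v : ℝ)) C /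
          ((volQ V Δ : ℝ) * (s + ∑ v ∈ Δ, ((e v : ℝ) + ε * t Δ v)) *
            ∏ v ∈ Δ, ((e v : ℝ) + ε * t Δ v))) (𝓝[>] 0)
        (𝓝 (∑ k ∈ Finset.range (n + 1), (-1) ^ k * (q k : ℝ) / (s + (∑ v, e v : ℚ)) ^ (k + 1)))) ∧
      ((∀ P : MvPolynomial ι ℚ, lamQ V 𝒱 t σ (C * P) = 0) → ∀ k, q k = 0)

/-- A2, from A1 -/
theorem ZZ_limit_of (limit_star : LimitStar) (V : ι → Fin n → ℚ)
    (𝒱 : Finset (Finset ι)) (hcard : ∀ Δ ∈ 𝒱, Δ.card = n)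
    (hli : ∀ Δ ∈ 𝒱, LinearIndependent ℚ (fun i : {i // i ∈ Δ} => V i))
    (t : Finset ι → ι → ℚ) (ht0 : ∀ Δ ∈ 𝒱, ∀ v, v ∉ Δ → t Δ v = 0)
    (ht : ∀ Δ ∈ 𝒱, ∀ v ∈ Δ, t Δ v ≠ 0)
    (E : Finset ι → ι → ℚ) (hE0 : ∀ Δ ∈ 𝒱, ∀ v, v ∉ Δ → E Δ v = 0)
    (hE : ∀ Δ ∈ 𝒱, ∀ j, ∑ v, E Δ v * V v j = 1) (hpos : ∀ Δ ∈ 𝒱, 0 < ∑ v, E Δ v)
    (low : ∀ Δ₀ ∈ 𝒱, ∀ σ : Finset ι, (∀ v, v ∈ σ ↔ E Δ₀ v ≠ 0) →
      ∀ α : ι → ℕ, ∑ v, α v + σ.card < n →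
      ∑ Δ ∈ 𝒱 with σ ⊆ Δ, (∏ v, t Δ v ^ α v) / (volQ V Δ * ∏ v ∈ Δ \ σ, t Δ v) = 0)
    (nn : Finset ι → ℚ) (hnn : ∀ F : Finset ι, F.card ≤ 1 → nn F = 1) :
    ∃ (K : ℚ) (Q : (ι → ℚ) → ℕ → ℚ),
      (∀ s : ℝ, 0 < s → Tendsto (fun ε : ℝ => ZZ nn V 𝒱 (fun Δ v => (E Δ v : ℝ) + ε * t Δ v) s)
        (𝓝[>] 0) (𝓝 ((K : ℝ) / (s + 1) - (s / (s + 1)) * ∑ e ∈ 𝒱.image E,
          ∑ k ∈ Finset.range (n + 1), (-1) ^ k * (Q e k : ℝ) / (s + (∑ v, e v : ℚ)) ^ (k + 1)))) ∧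
      ∀ e ∈ 𝒱.image E, ∀ σ : Finset ι, (∀ v, v ∈ σ ↔ e v ≠ 0) →
        (∀ P : MvPolynomial ι ℚ, lamQ V 𝒱 t σ (gpoly (fun F => nn F ^ 2) e * P) = 0) → ∀ k, Q e k = 0 := by
  classical
  have hvol : ∀ Δ ∈ 𝒱, volQ V Δ ≠ 0 := fun Δ hΔ => volQ_ne_zero V Δ (hcard Δ hΔ) (hli Δ hΔ)
  -- supports
  let sg : (ι → ℚ) → Finset ι := fun e => Finset.univ.filter fun v => e v ≠ 0
  have hsg : ∀ e v, v ∈ sg e ↔ e v ≠ 0 := by
    intro e v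
    simp [sg]
  -- the facets with a given point are those which contain its support
  have hfib : ∀ e ∈ 𝒱.image E, 𝒱.filter (fun Δ => E Δ = e) = 𝒱.filter (fun Δ => sg e ⊆ Δ) := by
    intro e he
    obtain ⟨Δ₀, hΔ₀, rfl⟩ := Finset.mem_image.1 he
    apply Finset.filter_congr
    intro Δ hΔ
    constructor
    · intro h v hv
      by_contra hvΔ
      rw [hsg, ← h] at hv
      exact hv (hE0 Δ hΔ v hvΔ)
    · intro h
      have hz : ∀ v, v ∉ Δ → E Δ₀ v = 0 := by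
        intro v hv
        by_contra h1
        exact hv (h ((hsg _ v).2 h1))
      have hsum : ∑ i : {i // i ∈ Δ}, (E Δ i - E Δ₀ i) • V i = 0 := by
        have h1 : ∑ i : {i // i ∈ Δ}, (E Δ i - E Δ₀ i) • V i = ∑ v, (E Δ v - E Δ₀ v) • V v := by
          rw [Finset.univ_eq_attach, Finset.sum_attach Δ (fun v => (E Δ v - E Δ₀ v) • V v)]
          apply Finset.sum_subset (Finset.subset_univ _)
          intro v _ hv
          rw [hE0 Δ hΔ v hv, hz v hv, sub_zero, zero_smul]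
        rw [h1]
        ext j
        rw [Finset.sum_apply]
        have h2 : ∀ v, ((E Δ v - E Δ₀ v) • V v) j = E Δ v * V v j - E Δ₀ v * V v j := by
          intro v
          rw [Pi.smul_apply, smul_eq_mul, sub_mul]
        rw [Finset.sum_congr rfl (fun v _ => h2 v), Finset.sum_sub_distrib, hE Δ hΔ, hE Δ₀ hΔ₀]
        simp
      have h3 := Fintype.linearIndependent_iff.1 (hli Δ hΔ) _ hsum
      funext v
      by_cases hv : v ∈ Δ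
      · exact sub_eq_zero.1 (h3 ⟨v, hv⟩)
      · rw [hE0 Δ hΔ v hv, hz v hv]
  -- the limits
  have hex : ∀ e ∈ 𝒱.image E, ∃ (K : ℚ) (q : ℕ → ℚ),
      Tendsto (fun ε : ℝ => ∑ Δ ∈ 𝒱 with sg e ⊆ Δ, 1 /
          ((volQ V Δ : ℝ) * ∏ v ∈ Δ, ((e v : ℝ) + ε * t Δ v))) (𝓝[>] 0) (𝓝 (K : ℝ)) ∧
      (∀ s : ℝ, 0 < s → Tendsto (fun ε : ℝ => ∑ Δ ∈ 𝒱 with sg e ⊆ Δ,
        MvPolynomial.aeval (fun v => ε * (t Δ v : ℝ)) (gpoly (fun F => nn F ^ 2) e) /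
          ((volQ V Δ : ℝ) * (s + ∑ v ∈ Δ, ((e v : ℝ) + ε * t Δ v)) *
            ∏ v ∈ Δ, ((e v : ℝ) + ε * t Δ v))) (𝓝[>] 0)
        (𝓝 (∑ k ∈ Finset.range (n + 1), (-1) ^ k * (q k : ℝ) / (s + (∑ v, e v : ℚ)) ^ (k + 1)))) ∧
      ((∀ P : MvPolynomial ι ℚ, lamQ V 𝒱 t (sg e) (gpoly (fun F => nn F ^ 2) e * P) = 0) → ∀ k, q k = 0) := by
    intro e he
    obtain ⟨Δ₀, hΔ₀, rfl⟩ := Finset.mem_image.1 he
    obtain ⟨⟨K, hK⟩, -⟩ := limit_star V 𝒱 hcard hvol t ht0 ht (E Δ₀) (sg (E Δ₀)) (hsg _)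
      (hpos Δ₀ hΔ₀) (low Δ₀ hΔ₀ _ (hsg _)) 1
    obtain ⟨-, q, hq, hq0⟩ := limit_star V 𝒱 hcard hvol t ht0 ht (E Δ₀) (sg (E Δ₀)) (hsg _)
      (hpos Δ₀ hΔ₀) (low Δ₀ hΔ₀ _ (hsg _)) (gpoly (fun F => nn F ^ 2) (E Δ₀))
    refine ⟨K, q, ?_, hq, hq0⟩
    simpa only [map_one] using hK
  choose! K q hK hq hq0 using hex
  refine ⟨∑ e ∈ 𝒱.image E, K e, q, ?_, ?_⟩
  · intro s hs
    -- eventually nothing vanishes
    have hx : ∀ᶠ ε : ℝ in 𝓝[>] 0, ∀ Δ ∈ 𝒱, ∀ v ∈ Δ, (E Δ v : ℝ) + ε * t Δ v ≠ 0 := by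
      rw [Filter.eventually_all_finset]
      intro Δ hΔ
      rw [Filter.eventually_all_finset]
      intro v hv
      by_cases h : E Δ v = 0
      · filter_upwards [self_mem_nhdsWithin] with ε hε
        rw [h, Rat.cast_zero, zero_add]
        exact mul_ne_zero (ne_of_gt hε) (Rat.cast_ne_zero.2 (ht Δ hΔ v hv))
      · have hc : Continuous fun ε : ℝ => (E Δ v : ℝ) + ε * t Δ v := by fun_prop
        have h1 : (E Δ v : ℝ) + 0 * t Δ v ≠ 0 := by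
          rw [zero_mul, add_zero]
          exact Rat.cast_ne_zero.2 h
        exact nhdsWithin_le_nhds (hc.continuousAt.eventually_ne h1)
    have hsx : ∀ᶠ ε : ℝ in 𝓝[>] 0, ∀ Δ ∈ 𝒱, s + ∑ v ∈ Δ, ((E Δ v : ℝ) + ε * t Δ v) ≠ 0 := by
      rw [Filter.eventually_all_finset]
      intro Δ hΔ
      have hc : Continuous fun ε : ℝ => s + ∑ v ∈ Δ, ((E Δ v : ℝ) + ε * t Δ v) := by fun_prop
      have h1 : s + ∑ v ∈ Δ, ((E Δ v : ℝ) + 0 * t Δ v) ≠ 0 := by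
        simp only [zero_mul, add_zero]
        have h2 : ∑ v ∈ Δ, (E Δ v : ℝ) = ((∑ v, E Δ v : ℚ) : ℝ) := by
          push_cast
          apply Finset.sum_subset (Finset.subset_univ _)
          intro v _ hv
          rw [hE0 Δ hΔ v hv, Rat.cast_zero]
        have h3 : (0 : ℝ) < ((∑ v, E Δ v : ℚ) : ℝ) := by exact_mod_cast hpos Δ hΔ
        rw [h2]
        positivity
      exact nhdsWithin_le_nhds (hc.continuousAt.eventually_ne h1)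
    have hlim := ((tendsto_finsetSum (𝒱.image E) hK).const_mul (1 / (s + 1))).sub
      ((tendsto_finsetSum (𝒱.image E) (fun e he => hq e he s hs)).const_mul (s / (s + 1)))
    have hval : 1 / (s + 1) * ∑ e ∈ 𝒱.image E, (K e : ℝ) =
        ((∑ e ∈ 𝒱.image E, K e : ℚ) : ℝ) / (s + 1) := by
      push_cast
      ring
    rw [hval] at hlim
    refine hlim.congr' ?_
    filter_upwards [hx, hsx] with ε hε1 hε2
    rw [ZZ_eq nn hnn V 𝒱 _ s hs hε1 hε2]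
    congr 1
    · congr 1
      rw [← Finset.sum_fiberwise_of_maps_to (s := 𝒱) (t := 𝒱.image E) (g := E)
        (fun Δ hΔ => Finset.mem_image_of_mem E hΔ)]
      apply Finset.sum_congr rfl
      intro e he
      rw [← hfib e he]
      apply Finset.sum_congr rfl
      intro Δ hΔ
      rw [(Finset.mem_filter.1 hΔ).2]
    · congr 1
      rw [← Finset.sum_fiberwise_of_maps_to (s := 𝒱) (t := 𝒱.image E) (g := E)
        (fun Δ hΔ => Finset.mem_image_of_mem E hΔ)]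
      apply Finset.sum_congr rfl
      intro e he
      rw [← hfib e he]
      apply Finset.sum_congr rfl
      intro Δ hΔ
      obtain ⟨hΔ𝒱, hΔe⟩ := Finset.mem_filter.1 hΔ
      rw [aeval_gpoly nn Δ, hΔe]
      intro v hv
      rw [← hΔe, hE0 Δ hΔ𝒱 v hv, ht0 Δ hΔ𝒱 v hv]
      simp
  · intro e he σ hσ hP
    have : σ = sg e := by
      ext v
      rw [hσ, hsg]
    subst this
    exact hq0 e he hP

end

end Pool.Agent.helper80.DL
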